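import Pool.Agent.N299.ND.Stm2

/-!
Project ND, task BRI: every algebra is an ideal of a unital algebra.
-/

set_option autoImplicit false

open scoped Topology Matrix.Norms.L2Operator

noncomputable section

namespace Pool.Agent.N438.ND

open Pool.Agent.N299.ND Pool.Agent.N299.ND.Pub

/-- the ideal -/
def idl (A : Type) [NonUnitalCStarAlgebra A] : Submodule ℂ (Unitization ℂ A) where
  carrier := {x | x.fst = 0}
  add_mem' := by
    intro x y hx hy
    have hx : x.fst = 0 := hx
    have hy : y.fst = 0 := hy
    show (x + y).fst = 0
    rw [Unitization.fst_add, hx, hy, add_zero]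
  zero_mem' := rfl
  smul_mem' := by
    intro c x hx
    have hx : x.fst = 0 := hx
    show (c • x).fst = 0
    rw [Unitization.fst_smul, hx, smul_zero]

theorem mem_idl {A : Type} [NonUnitalCStarAlgebra A] (x : Unitization ℂ A) :
    x ∈ idl A ↔ x.fst = 0 := Iff.rfl

theorem t_BRI : S_BRI := by
  intro A _ _
  refine ⟨Unitization ℂ A, inferInstance, ?_, Unitization.inrNonUnitalStarAlgHom ℂ A, idl A, ?_⟩
  · -- separable
    have h1 : Continuous (fun p : ℂ × A => algebraMap ℂ (Unitization ℂ A) p.1 +
        (p.2 : Unitization ℂ A)) :=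
      ((continuous_algebraMap ℂ (Unitization ℂ A)).comp continuous_fst).add
        (Unitization.continuous_inr.comp continuous_snd)
    have h2 : Function.Surjective (fun p : ℂ × A => algebraMap ℂ (Unitization ℂ A) p.1 +
        (p.2 : Unitization ℂ A)) := by
      intro x
      refine ⟨(x.fst, x.snd), ?_⟩
      exact Unitization.inl_fst_add_inr_snd_eq x
    exact h2.denseRange.separableSpace h1
  · refine ⟨?_, ⟨?_, ?_, ?_, ?_⟩, ?_⟩
    · intro x y hxy
      exact Unitization.inr_injective hxy
    · exact isClosed_singleton.preimage (Unitization.continuous_fst (𝕜 := ℂ) (A := A))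
    · intro x hx y
      rw [mem_idl] at hx ⊢
      rw [Unitization.fst_mul, hx, mul_zero]
    · intro x hx y
      rw [mem_idl] at hx ⊢
      rw [Unitization.fst_mul, hx, zero_mul]
    · intro x hx
      rw [mem_idl] at hx ⊢
      rw [Unitization.fst_star, hx, star_zero]
    · intro x
      rw [mem_idl]
      constructor
      · intro hx
        refine ⟨x.snd, ?_⟩
        rw [Unitization.inrNonUnitalStarAlgHom_apply]
        ext
        · rw [Unitization.fst_inr, hx]
        · rw [Unitization.snd_inr]
      · rintro ⟨a, rfl⟩
        rw [Unitization.inrNonUnitalStarAlgHom_apply, Unitization.fst_inr]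

end Pool.Agent.N438.ND
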