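import Pool.Agent.N299.ND.Stm2

/-!
Project ND, task BRL: local `𝒵`-stability of an ideal, in terms of the algebra itself.
-/

set_option autoImplicit false

open scoped Topology Matrix.Norms.L2Operator

noncomputable section

namespace Pool.Agent.N438.ND

open Pool.Agent.N299.ND Pool.Agent.N299.ND.Pub

theorem t_BRL : S_BRL := by
  classical
  intro A B _ _ ι I h hL N F ε hε
  have hn : ∀ x : A, ‖ι x‖ = ‖x‖ := fun x => NonUnitalStarAlgHom.norm_map ι h.inj x
  obtain ⟨c, s, hc, hs, hcn, hsn, ⟨d, hd, hd'⟩, H⟩ := hL N (F.image ι) ε (by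
    intro a ha
    obtain ⟨b, -, rfl⟩ := Finset.mem_image.mp ha
    exact (h.mem _).2 ⟨b, rfl⟩) hε
  choose c' hc' using fun i => (h.mem _).1 (hc i)
  obtain ⟨s', rfl⟩ := (h.mem _).1 hs
  obtain ⟨d', rfl⟩ := (h.mem _).1 hd
  obtain rfl : c = fun i => ι (c' i) := funext fun i => (hc' i).symm
  refine ⟨c', s', fun i => ?_, ?_, ⟨d', h.inj ?_⟩, fun a ha => ?_⟩
  · rw [← hn]; exact hcn i
  · rw [← hn]; exact hsn
  · rw [map_mul, map_star]; exact hd'
  · have H' := H (ι a) (Finset.mem_image_of_mem ι ha)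
    simp only [← map_mul, ← map_sub, ← map_star, ← map_add, ← map_sum, hn] at H'
    exact H'

end Pool.Agent.N438.ND
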